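import Pool.Agent.H169R3.Kum.C
import Pool.Agent.TH847.LG.Disc

/-!
# The field `ℚ((q₁ q₂^(d-1))^(1/d))` and its prime ideals of degree one (piece A2 of helper76's project RG)
-/

set_option autoImplicit false

namespace Pool.Agent.K1H26.RG

open NumberField Polynomial

section irr

variable {d q₁ q₂ : ℕ}

lemma eis (hd : 2 ≤ d) (h1 : q₁.Prime) (h2 : q₂.Prime) (hne : q₁ ≠ q₂) :
    Irreducible (X ^ d - C ((q₁ * q₂ ^ (d - 1) : ℕ) : ℤ) : ℤ[X]) := by
  have hd0 : d ≠ 0 := by omega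
  have hmon : (X ^ d - C ((q₁ * q₂ ^ (d - 1) : ℕ) : ℤ) : ℤ[X]).Monic := monic_X_pow_sub_C _ hd0
  have hdeg : (X ^ d - C ((q₁ * q₂ ^ (d - 1) : ℕ) : ℤ) : ℤ[X]).degree = d :=
    degree_X_pow_sub_C (by omega) _
  have hp : Prime (q₁ : ℤ) := Nat.prime_iff_prime_int.mp h1
  have hP : (Ideal.span {(q₁ : ℤ)}).IsPrime := (Ideal.span_singleton_prime hp.ne_zero).mpr hp
  have hcop : Nat.Coprime q₁ (q₂ ^ (d - 1)) :=
    Nat.Coprime.pow_right _ ((Nat.coprime_primes h1 h2).mpr hne)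
  refine irreducible_of_eisenstein_criterion hP ?_ ?_ ?_ ?_ hmon.isPrimitive
  · rw [hmon.leadingCoeff]
    exact fun h => hP.ne_top ((Ideal.eq_top_iff_one _).mpr h)
  · intro n hn
    rw [hdeg] at hn
    have hn' : n < d := by exact_mod_cast hn
    rw [Ideal.mem_span_singleton, coeff_sub, coeff_X_pow, if_neg (by omega), zero_sub, dvd_neg,
      coeff_C]
    split_ifs
    · push_cast
      exact dvd_mul_right _ _
    · exact dvd_zero _
  · rw [hdeg]
    exact_mod_cast (by omega : 0 < d)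
  · rw [coeff_sub, coeff_X_pow, if_neg (by omega), zero_sub, coeff_C_zero, Ideal.span_singleton_pow,
      Ideal.mem_span_singleton, dvd_neg]
    intro h
    have h3 : q₁ ^ 2 ∣ q₁ * q₂ ^ (d - 1) := by exact_mod_cast h
    rw [sq] at h3
    have h4 : q₁ ∣ q₂ ^ (d - 1) := Nat.dvd_of_mul_dvd_mul_left h1.pos h3
    have h5 := Nat.eq_one_of_dvd_coprimes hcop dvd_rfl h4
    exact h1.one_lt.ne' h5

lemma eisQ (hd : 2 ≤ d) (h1 : q₁.Prime) (h2 : q₂.Prime) (hne : q₁ ≠ q₂) :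
    Irreducible (X ^ d - C ((q₁ * q₂ ^ (d - 1) : ℕ) : ℚ) : ℚ[X]) := by
  have hmon : (X ^ d - C ((q₁ * q₂ ^ (d - 1) : ℕ) : ℤ) : ℤ[X]).Monic :=
    monic_X_pow_sub_C _ (by omega)
  have h := (hmon.irreducible_iff_irreducible_map_fraction_map (K := ℚ)).mp (eis hd h1 h2 hne)
  simpa using h

end irr

lemma aev_zero {K : Type} [Field K] [Algebra ℚ K] {d η : ℕ} {t : K} (h : t ^ d = (η : K)) :
    aeval t (X ^ d - C (η : ℚ) : ℚ[X]) = 0 := by
  simp [h]

/-- the field and its prime ideals of degree one -/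
theorem fld {d q₁ q₂ : ℕ} (hd : 2 ≤ d) (h1 : q₁.Prime) (h2 : q₂.Prime) (hne : q₁ ≠ q₂) :
    ∃ (E : Type) (_ : Field E) (_ : NumberField E) (θ : 𝓞 E) (P : ℕ → ℕ → Ideal (𝓞 E)),
      Module.finrank ℚ E = d ∧
      |(discr E : ℝ)| ≤ (2 * (q₁ * q₂ : ℝ)) ^ (d * (d - 1)) ∧
      ∀ r : ℕ, r.Prime → ¬ r ∣ d * (q₁ * q₂ ^ (d - 1)) → ∀ k : ℕ,
        ((k : ZMod r)) ^ d = ((q₁ * q₂ ^ (d - 1) : ℕ) : ZMod r) →
        (P r k).IsMaximal ∧ Ideal.absNorm (P r k) = r ∧ θ - (k : 𝓞 E) ∈ P r k ∧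
          ∀ j : ℤ, (j : 𝓞 E) ∈ P r k → (r : ℤ) ∣ j := by
  have hd0 : d ≠ 0 := by omega
  obtain ⟨η, hη⟩ : ∃ η : ℕ, η = q₁ * q₂ ^ (d - 1) := ⟨_, rfl⟩
  rw [← hη]
  set f : ℚ[X] := X ^ d - C (η : ℚ) with hf
  have hirr : Irreducible f := by rw [hf, hη]; exact eisQ hd h1 h2 hne
  have : Fact (Irreducible f) := ⟨hirr⟩
  let B : PowerBasis ℚ (AdjoinRoot f) := AdjoinRoot.powerBasis hirr.ne_zero
  have : FiniteDimensional ℚ (AdjoinRoot f) := B.finite
  have : CharZero (AdjoinRoot f) := charZero_of_injective_algebraMap (algebraMap ℚ _).injective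
  have : NumberField (AdjoinRoot f) := { to_charZero := inferInstance, to_finiteDimensional := inferInstance }
  have hfmap : (X ^ d - C (η : ℤ) : ℤ[X]).map (Int.castRingHom ℚ) = f := by
    simp [hf]
  have hrt : (AdjoinRoot.root f) ^ d = (η : AdjoinRoot f) := by
    have h1 : (AdjoinRoot.root f) ^ d - (η : AdjoinRoot f) = 0 := by
      have := AdjoinRoot.eval₂_root f
      simpa [hf] using this
    exact sub_eq_zero.mp h1
  have hmonZ : (X ^ d - C (η : ℤ) : ℤ[X]).Monic := monic_X_pow_sub_C _ hd0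
  have hmonf : f.Monic := monic_X_pow_sub_C _ hd0
  have hroot : IsIntegral ℤ (AdjoinRoot.root f) := by
    refine ⟨X ^ d - C (η : ℤ), hmonZ, ?_⟩
    simp [hrt]
  let θ : 𝓞 (AdjoinRoot f) := ⟨AdjoinRoot.root f, hroot⟩
  have hBgen : B.gen = AdjoinRoot.root f := rfl
  have hfin : Module.finrank ℚ (AdjoinRoot f) = d := by
    rw [B.finrank]
    show f.natDegree = d
    rw [hf]
    exact natDegree_X_pow_sub_C
  have haevf : aeval (AdjoinRoot.root f) f = 0 := aev_zero hrt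
  -- the discriminant of the power basis
  have hmin : minpoly ℚ B.gen = f := by
    rw [hBgen]
    exact (minpoly.eq_of_irreducible_of_monic hirr haevf hmonf).symm
  have hcoe : f.coeff 0 = -(η : ℚ) := by
    rw [hf, coeff_sub, coeff_X_pow, if_neg (by omega), zero_sub, coeff_C_zero]
  have hnorm : Algebra.norm ℚ (AdjoinRoot.root f) = (-1) ^ d * (-(η : ℚ)) := by
    have := Algebra.PowerBasis.norm_gen_eq_coeff_zero_minpoly B
    rw [hmin, hBgen, hcoe] at this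
    rw [this]
    have h3 : B.dim = d := by rw [← B.finrank]; exact hfin
    rw [h3]
  have hder : derivative f = C (d : ℚ) * X ^ (d - 1) := by
    rw [hf, derivative_sub, derivative_X_pow, derivative_C, sub_zero]
  have hdisc : Algebra.discr ℚ B.basis = (-1) ^ (d * (d - 1) / 2) *
      ((d : ℚ) ^ d * ((-1) ^ d * (-(η : ℚ))) ^ (d - 1)) := by
    rw [Algebra.discr_powerBasis_eq_norm, hmin, hfin, hBgen, hder]
    congr 1
    rw [map_mul, map_pow, aeval_X, aeval_C, map_mul, map_pow, hnorm, Algebra.norm_algebraMap, hfin]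
  have hη0 : 0 < η := by
    rw [hη]; exact Nat.mul_pos h1.pos (pow_pos h2.pos _)
  have hDint : IsIntegral ℤ (Algebra.discr ℚ B.basis) := by
    refine Algebra.discr_isIntegral ℚ fun i => ?_
    rw [B.basis_eq_pow, hBgen]
    exact hroot.pow _
  obtain ⟨D, hD⟩ := IsIntegrallyClosed.isIntegral_iff.1 hDint
  have hDabs : D.natAbs = d ^ d * η ^ (d - 1) := by
    have h3 : (D : ℚ) = (-1) ^ (d * (d - 1) / 2) *
      ((d : ℚ) ^ d * ((-1) ^ d * (-(η : ℚ))) ^ (d - 1)) := by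
      rw [← hdisc, ← hD]; simp
    have h4 : D = (-1) ^ (d * (d - 1) / 2) *
      ((d : ℤ) ^ d * ((-1) ^ d * (-(η : ℤ))) ^ (d - 1)) := by exact_mod_cast h3
    rw [h4]
    simp [Int.natAbs_mul, Int.natAbs_pow]
  have haev : ∀ g : ℤ[X], ((aeval θ g : 𝓞 (AdjoinRoot f)) : AdjoinRoot f) =
      aeval (AdjoinRoot.root f) g := by
    intro g
    have := Polynomial.aeval_algebraMap_apply (AdjoinRoot f) θ g
    exact this.symm
  have H1 : ∀ x : 𝓞 (AdjoinRoot f), ∃ g : ℤ[X], aeval θ g = (D : 𝓞 (AdjoinRoot f)) * x := by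
    intro x
    have h1 := Algebra.discr_mul_isIntegral_mem_adjoin (R := ℤ) (K := ℚ) (B := B)
      (by rw [hBgen]; exact hroot) (NumberField.RingOfIntegers.isIntegral_coe x)
    rw [hBgen, Algebra.adjoin_singleton_eq_range_aeval] at h1
    obtain ⟨g, hg⟩ := h1
    refine ⟨g, ?_⟩
    apply NumberField.RingOfIntegers.coe_injective
    have h2 : aeval (AdjoinRoot.root f) g = Algebra.discr ℚ B.basis • (x : AdjoinRoot f) := hg
    change ((aeval θ g : 𝓞 (AdjoinRoot f)) : AdjoinRoot f) = _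
    rw [haev, h2, ← hD, Algebra.smul_def]
    simp
  have H2 : ∀ h : ℤ[X], aeval θ h = 0 → (X ^ d - C (η : ℤ) : ℤ[X]) ∣ h := by
    intro h hh
    have h1 : aeval (AdjoinRoot.root f) h = 0 := by
      rw [← haev, hh]; simp
    have h2 : AdjoinRoot.mk f (h.map (Int.castRingHom ℚ)) = 0 := by
      rw [← AdjoinRoot.aeval_eq]
      have := Polynomial.aeval_map_algebraMap ℚ (AdjoinRoot.root f) h
      rw [← h1, ← this]
      rfl
    rw [AdjoinRoot.mk_eq_zero, ← hfmap] at h2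
    exact (Polynomial.map_dvd_map _ Int.cast_injective hmonZ).1 h2
  classical
  let P : ℕ → ℕ → Ideal (𝓞 (AdjoinRoot f)) := fun r k =>
    if hc : ∃ P : Ideal (𝓞 (AdjoinRoot f)), P.IsMaximal ∧ Ideal.absNorm P = r ∧
      θ - (((k : ℤ)) : 𝓞 (AdjoinRoot f)) ∈ P ∧ ∀ j : ℤ, (j : 𝓞 (AdjoinRoot f)) ∈ P → (r : ℤ) ∣ j
    then hc.choose else ⊤
  refine ⟨AdjoinRoot f, inferInstance, inferInstance, θ, P, hfin, ?_, ?_⟩
  · have htop : IntermediateField.adjoin ℚ {((θ : 𝓞 (AdjoinRoot f)) : AdjoinRoot f)} = ⊤ := by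
      apply IntermediateField.adjoin_eq_top_of_algebra
      have := B.adjoin_gen_eq_top
      rw [hBgen] at this
      exact this
    refine Pool.Agent.TH847.LG.disc_bound hfin θ htop (fun w => ?_)
    have hw1 : w ((θ : 𝓞 (AdjoinRoot f)) : AdjoinRoot f) ^ d = (η : ℝ) := by
      rw [← map_pow]
      have : (((θ : 𝓞 (AdjoinRoot f)) : AdjoinRoot f)) ^ d = (η : AdjoinRoot f) := hrt
      rw [this]
      exact w.map_natCast η
    have hw2 : (η : ℝ) ≤ ((q₁ : ℝ) * q₂) ^ d := by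
      have h5 : η ≤ (q₁ * q₂) ^ d := by
        rw [hη, mul_pow]
        exact Nat.mul_le_mul (Nat.le_self_pow hd0 _) (Nat.pow_le_pow_right h2.pos (by omega))
      exact_mod_cast h5
    have h6 : (0 : ℝ) ≤ (q₁ : ℝ) * q₂ := by positivity
    exact le_of_pow_le_pow_left₀ hd0 h6 (by rw [hw1]; exact hw2)
  · intro r hr hrd k hk
    have hrd' : ¬ (r : ℤ) ∣ D := by
      intro hcon
      have h5 : r ∣ D.natAbs := Int.natCast_dvd.1 hcon
      rw [hDabs] at h5
      rcases (Nat.Prime.dvd_mul hr).1 h5 with h6 | h6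
      · exact hrd ((hr.dvd_of_dvd_pow h6).mul_right _)
      · exact hrd ((hr.dvd_of_dvd_pow h6).mul_left _)
    have hk' : (r : ℤ) ∣ (X ^ d - C (η : ℤ) : ℤ[X]).eval (k : ℤ) := by
      rw [← ZMod.intCast_zmod_eq_zero_iff_dvd]
      simp [hk]
    have hc := Pool.Agent.H169R3.Kum.exists_ideal θ (X ^ d - C (η : ℤ)) D H1 H2 r hr hrd' (k : ℤ) hk'
    have : P r k = hc.choose := dif_pos hc
    rw [this]
    have h7 := hc.choose_spec
    refine ⟨h7.1, h7.2.1, ?_, h7.2.2.2⟩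
    have h8 := h7.2.2.1
    simpa using h8

end Pool.Agent.K1H26.RG
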