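import Pool.Agent.K1H76.RG.Stm
import Pool.Agent.K1H26.RG.Fld

/-!
# Piece A2 (`S_DEG1`) of helper76's project RG, conditional on A1 (`S_RES`)
-/

set_option autoImplicit false

namespace Pool.Agent.K1H26.RG

open NumberField Finset Polynomial
open Pool.Agent.K1H76.RG (Pr rts S_RES S_DEG1)

section zeta

variable {E : Type} [Field E] [NumberField E]

lemma ne_bot_of_max (P : Ideal (𝓞 E)) (hP : P.IsMaximal) : P ≠ ⊥ :=
  Ring.ne_bot_of_isMaximal_of_not_isField hP (RingOfIntegers.not_isField E)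

/-- finite sums over non-zero ideals are bounded by the zeta function -/
lemma sum_le {s : ℝ}
    (hsum : Summable (fun I : {I : Ideal (𝓞 E) // I ≠ ⊥} => ((Ideal.absNorm I.1 : ℕ) : ℝ) ^ (-s)))
    (G : Finset (Ideal (𝓞 E))) (hG : ∀ I ∈ G, I ≠ ⊥) :
    ∑ I ∈ G, ((Ideal.absNorm I : ℕ) : ℝ) ^ (-s) ≤
      ∑' I : {I : Ideal (𝓞 E) // I ≠ ⊥}, ((Ideal.absNorm I.1 : ℕ) : ℝ) ^ (-s) := by
  classical
  rw [← Finset.sum_subtype_of_mem (p := fun I : Ideal (𝓞 E) => I ≠ ⊥)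
    (fun I : Ideal (𝓞 E) => ((Ideal.absNorm I : ℕ) : ℝ) ^ (-s)) hG]
  exact hsum.sum_le_tsum _ fun I _ => Real.rpow_nonneg (Nat.cast_nonneg _) _

/-- different sets of maximal ideals have different products -/
lemma prod_sub {T T' : Finset (Ideal (𝓞 E))} (hT : ∀ P ∈ T, P.IsMaximal) (hT' : ∀ P ∈ T', P.IsMaximal)
    (h : ∏ P ∈ T, P = ∏ P ∈ T', P) : T ⊆ T' := by
  intro P hP
  have h1 : P ∣ ∏ P ∈ T', P := by
    rw [← h]
    exact Finset.dvd_prod_of_mem (fun P => P) hP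
  have hPp : Prime P := Ideal.prime_of_isPrime (ne_bot_of_max P (hT P hP)) (hT P hP).isPrime
  obtain ⟨Q, hQ, hPQ⟩ := (Prime.dvd_finsetProd_iff hPp _).mp h1
  have h2 : Q ≤ P := Ideal.le_of_dvd hPQ
  have h3 : Q = P := (hT' Q hQ).eq_of_le (hT P hP).ne_top h2
  rwa [← h3]

lemma prod_le {s : ℝ}
    (hsum : Summable (fun I : {I : Ideal (𝓞 E) // I ≠ ⊥} => ((Ideal.absNorm I.1 : ℕ) : ℝ) ^ (-s)))
    (F : Finset (Ideal (𝓞 E))) (hF : ∀ P ∈ F, P.IsMaximal) :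
    ∏ P ∈ F, (1 + ((Ideal.absNorm P : ℕ) : ℝ) ^ (-s)) ≤
      ∑' I : {I : Ideal (𝓞 E) // I ≠ ⊥}, ((Ideal.absNorm I.1 : ℕ) : ℝ) ^ (-s) := by
  classical
  rw [Finset.prod_one_add]
  have h1 : ∀ T ∈ F.powerset, ∏ P ∈ T, ((Ideal.absNorm P : ℕ) : ℝ) ^ (-s) =
      ((Ideal.absNorm (∏ P ∈ T, P) : ℕ) : ℝ) ^ (-s) := by
    intro T _
    rw [map_prod, Nat.cast_prod, Real.finsetProd_rpow _ _ fun i _ => Nat.cast_nonneg _]
  rw [Finset.sum_congr rfl h1]
  have hinj : Set.InjOn (fun T : Finset (Ideal (𝓞 E)) => ∏ P ∈ T, P) (F.powerset : Set _) := by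
    intro T hT T' hT' h
    have hT1 : ∀ P ∈ T, P.IsMaximal := fun P hP => hF P (Finset.mem_powerset.mp hT hP)
    have hT2 : ∀ P ∈ T', P.IsMaximal := fun P hP => hF P (Finset.mem_powerset.mp hT' hP)
    exact Finset.Subset.antisymm (prod_sub hT1 hT2 h) (prod_sub hT2 hT1 h.symm)
  rw [← Finset.sum_image (f := fun I : Ideal (𝓞 E) => ((Ideal.absNorm I : ℕ) : ℝ) ^ (-s)) hinj]
  refine sum_le hsum _ ?_
  intro I hI
  obtain ⟨T, hT, rfl⟩ := Finset.mem_image.mp hI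
  show (∏ P ∈ T, P) ≠ ⊥
  rw [← Ideal.zero_eq_bot, Finset.prod_ne_zero_iff]
  intro P hP
  rw [Ideal.zero_eq_bot]
  exact ne_bot_of_max P (hF P (Finset.mem_powerset.mp hT hP))

end zeta

lemma log_ge {x : ℝ} (hx : 0 ≤ x) : x ≤ Real.log (1 + x) + x ^ 2 := by
  have h1 : 0 < 1 + x := by linarith
  have h2 := Real.one_sub_inv_le_log_of_pos h1
  have h3 : 1 - (1 + x)⁻¹ = x / (1 + x) := by field_simp; ring
  have h4 : x - x ^ 2 ≤ x / (1 + x) := by
    rw [le_div_iff₀ h1]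
    nlinarith [pow_nonneg hx 3, pow_nonneg hx 2]
  linarith

/-- the solutions as integers -/
def R (d a r : ℕ) : Finset ℕ := (range r).filter fun k => ((k : ZMod r)) ^ d = (a : ZMod r)

lemma R_card {d a r : ℕ} (hd : 2 ≤ d) (hr : r.Prime) : #(R d a r) ≤ d := by
  classical
  have : Fact r.Prime := ⟨hr⟩
  have h1 : #(R d a r) ≤ #((nthRoots d (a : ZMod r)).toFinset) := by
    refine Finset.card_le_card_of_injOn (fun k : ℕ => (k : ZMod r)) ?_ ?_
    · intro k hk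
      rw [Finset.mem_coe, R, Finset.mem_filter] at hk
      simp only [Finset.mem_coe, Multiset.mem_toFinset]
      rw [mem_nthRoots (by omega)]
      exact hk.2
    · intro k hk l hl hkl
      rw [Finset.mem_coe, R, Finset.mem_filter, Finset.mem_range] at hk hl
      have h2 : (k : ZMod r) = (l : ZMod r) := hkl
      rw [ZMod.natCast_eq_natCast_iff'] at h2
      rwa [Nat.mod_eq_of_lt hk.1, Nat.mod_eq_of_lt hl.1] at h2
  exact h1.trans ((Multiset.toFinset_card_le _).trans (card_nthRoots d _))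

lemma rts_le {d a r : ℕ} (hr : r.Prime) : rts d a r ≤ #(R d a r) := by
  have : NeZero r := ⟨hr.ne_zero⟩
  rw [rts, ← Nat.card_eq_finsetCard]
  refine Nat.card_le_card_of_injective
    (fun x => ⟨x.1.val, ?_⟩) ?_
  · rw [R, Finset.mem_filter, Finset.mem_range]
    refine ⟨ZMod.val_lt _, ?_⟩
    rw [ZMod.natCast_zmod_val]
    exact x.2
  · intro x y hxy
    have h := congrArg Subtype.val hxy
    exact Subtype.ext (ZMod.val_injective r h)

lemma sum_sq (x : ℕ) : ∑ r ∈ Pr x, ((r : ℝ)) ^ (-(2 : ℝ)) ≤ 2 := by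
  have h1 : ∑ r ∈ Pr x, ((r : ℝ)) ^ (-(2 : ℝ)) = ∑ r ∈ Pr x, ((r : ℝ) ^ 2)⁻¹ := by
    refine Finset.sum_congr rfl fun r _ => ?_
    rw [Real.rpow_neg (Nat.cast_nonneg _)]
    norm_num
  rw [h1]
  have h2 : Pr x ⊆ Ioo 0 (x + 1) := by
    intro r hr
    rw [Pr, Finset.mem_filter, Finset.mem_range] at hr
    rw [Finset.mem_Ioo]
    exact ⟨hr.2.pos, hr.1⟩
  refine (Finset.sum_le_sum_of_subset_of_nonneg h2 fun _ _ _ => by positivity).trans ?_
  have := sum_Ioo_inv_sq_le (α := ℝ) 0 (x + 1)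
  simpa using this

/-- the primes dividing `d q₁ q₂^(d-1)` contribute at most `d (d + 2)` -/
lemma bad {d q₁ q₂ : ℕ} (hd : 2 ≤ d) (h1 : q₁.Prime) (h2 : q₂.Prime) {s : ℝ} (hs : 1 < s) (x : ℕ) :
    ∑ p ∈ (Pr x).filter (fun r => r ∣ d * (q₁ * q₂ ^ (d - 1))),
      (rts d (q₁ * q₂ ^ (d - 1)) p : ℝ) * (p : ℝ) ^ (-s) ≤ d * (d + 2) := by
  have hterm : ∀ p ∈ (Pr x).filter (fun r => r ∣ d * (q₁ * q₂ ^ (d - 1))),
      (rts d (q₁ * q₂ ^ (d - 1)) p : ℝ) * (p : ℝ) ^ (-s) ≤ d := by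
    intro p hp
    rw [Finset.mem_filter, Pr, Finset.mem_filter] at hp
    have hpp := hp.1.2
    have h3 : (rts d (q₁ * q₂ ^ (d - 1)) p : ℝ) ≤ d := by
      exact_mod_cast (rts_le hpp).trans (R_card hd hpp)
    have h4 : (p : ℝ) ^ (-s) ≤ 1 :=
      Real.rpow_le_one_of_one_le_of_nonpos (by exact_mod_cast hpp.one_lt.le) (by linarith)
    have h5 : (0 : ℝ) ≤ (p : ℝ) ^ (-s) := Real.rpow_nonneg (Nat.cast_nonneg _) _
    calc (rts d (q₁ * q₂ ^ (d - 1)) p : ℝ) * (p : ℝ) ^ (-s) ≤ d * 1 :=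
          mul_le_mul h3 h4 h5 (Nat.cast_nonneg _)
      _ = d := mul_one _
  refine (Finset.sum_le_card_nsmul _ _ _ hterm).trans ?_
  have hcard : #((Pr x).filter (fun r => r ∣ d * (q₁ * q₂ ^ (d - 1)))) ≤ d + 2 := by
    have hsub : (Pr x).filter (fun r => r ∣ d * (q₁ * q₂ ^ (d - 1))) ⊆
        insert q₁ (insert q₂ (Icc 1 d)) := by
      intro r hr
      rw [Finset.mem_filter, Pr, Finset.mem_filter] at hr
      have hrp := hr.1.2
      rw [Finset.mem_insert, Finset.mem_insert, Finset.mem_Icc]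
      rcases (Nat.Prime.dvd_mul hrp).1 hr.2 with h | h
      · exact Or.inr (Or.inr ⟨hrp.one_lt.le, Nat.le_of_dvd (by omega) h⟩)
      · rcases (Nat.Prime.dvd_mul hrp).1 h with h | h
        · exact Or.inl ((Nat.prime_dvd_prime_iff_eq hrp h1).1 h)
        · exact Or.inr (Or.inl ((Nat.prime_dvd_prime_iff_eq hrp h2).1 (hrp.dvd_of_dvd_pow h)))
    refine (Finset.card_le_card hsub).trans ((Finset.card_insert_le _ _).trans ?_)
    have := Finset.card_insert_le q₂ (Icc 1 d)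
    rw [Nat.card_Icc] at this
    omega
  rw [nsmul_eq_mul, mul_comm]
  exact mul_le_mul_of_nonneg_left (by exact_mod_cast hcard) (Nat.cast_nonneg _)

theorem t_DEG1 (h : S_RES) : S_DEG1 := by
  classical
  intro d hd
  obtain ⟨C₀, hC₀, hRES⟩ := h d
  refine ⟨|Real.log C₀| + d * Real.log (1 + (d : ℝ) ^ 2) + d + 2 * d + d * (d + 2) + 1, ?_, ?_⟩
  · have : 0 ≤ Real.log (1 + (d : ℝ) ^ 2) := Real.log_nonneg (by nlinarith [sq_nonneg (d : ℝ)])
    positivity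
  intro q₁ q₂ h1 h2 hne s hs1 hs2 x
  obtain ⟨E, _, _, θ, P, hfin, hdisc, hP⟩ := fld hd h1 h2 hne
  obtain ⟨hsum, hres⟩ := hRES E hfin s hs1 hs2
  set η : ℕ := q₁ * q₂ ^ (d - 1) with hη
  set G : Finset ℕ := (Pr x).filter (fun r => ¬ r ∣ d * η) with hG
  set S : Finset (Σ _ : ℕ, ℕ) := G.sigma (fun r => R d η r) with hS
  have hmem : ∀ z ∈ S, z.1.Prime ∧ z.2 < z.1 ∧ (P z.1 z.2).IsMaximal ∧ Ideal.absNorm (P z.1 z.2) = z.1 ∧
      θ - (z.2 : 𝓞 E) ∈ P z.1 z.2 ∧ ∀ j : ℤ, (j : 𝓞 E) ∈ P z.1 z.2 → (z.1 : ℤ) ∣ j := by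
    intro z hz
    rw [hS, Finset.mem_sigma, hG, Finset.mem_filter, Pr, Finset.mem_filter, R, Finset.mem_filter,
      Finset.mem_range, Finset.mem_range] at hz
    exact ⟨hz.1.1.2, hz.2.1, hP z.1 hz.1.1.2 hz.1.2 z.2 hz.2.2⟩
  have hinj : Set.InjOn (fun z : (Σ _ : ℕ, ℕ) => P z.1 z.2) (S : Set (Σ _ : ℕ, ℕ)) := by
    rintro ⟨r, k⟩ hz ⟨r', k'⟩ hz' heq
    have heq' : P r k = P r' k' := heq
    obtain ⟨hr, hk, -, hN, hθ, hj⟩ := hmem _ hz
    obtain ⟨hr', hk', -, hN', hθ', hj'⟩ := hmem _ hz'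
    simp only at hr hk hN hθ hj hr' hk' hN' hθ' hj'
    have hrr : r = r' := by rw [← hN, ← hN', heq']
    subst hrr
    have h5 : (((k : ℤ) - (k' : ℤ) : ℤ) : 𝓞 E) ∈ P r k := by
      rw [← heq'] at hθ'
      have := (P r k).sub_mem hθ' hθ
      push_cast at this ⊢
      convert this using 1
      ring
    have h6 := hj _ h5
    have h7 : k = k' := by
      obtain ⟨c, hc⟩ := h6
      have hkr : (k : ℤ) < r := by exact_mod_cast hk
      have hkr' : (k' : ℤ) < r := by exact_mod_cast hk'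
      have hk0 : (0 : ℤ) ≤ k := by positivity
      have hk0' : (0 : ℤ) ≤ k' := by positivity
      have hc0 : c = 0 := by
        by_contra hc0
        rcases lt_or_gt_of_ne hc0 with h | h
        · have : (r : ℤ) * c ≤ r * (-1) := mul_le_mul_of_nonneg_left (by omega) (by positivity)
          linarith
        · have : (r : ℤ) * 1 ≤ r * c := mul_le_mul_of_nonneg_left (by omega) (by positivity)
          linarith
      rw [hc0, mul_zero] at hc
      have : (k : ℤ) = k' := by linarith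
      exact_mod_cast this
    subst h7
    rfl
  set F : Finset (Ideal (𝓞 E)) := S.image (fun z => P z.1 z.2) with hF
  have hFmax : ∀ I ∈ F, I.IsMaximal := by
    intro I hI
    rw [hF, Finset.mem_image] at hI
    obtain ⟨z, hz, rfl⟩ := hI
    exact (hmem z hz).2.2.1
  have hFsum : ∀ t : ℝ, ∑ I ∈ F, ((Ideal.absNorm I : ℕ) : ℝ) ^ (-t) =
      ∑ r ∈ G, (#(R d η r) : ℝ) * (r : ℝ) ^ (-t) := by
    intro t
    rw [hF, Finset.sum_image hinj]
    have h3 : ∀ z ∈ S, ((Ideal.absNorm (P z.1 z.2) : ℕ) : ℝ) ^ (-t) = (z.1 : ℝ) ^ (-t) := by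
      intro z hz
      rw [(hmem z hz).2.2.2.1]
    rw [Finset.sum_congr rfl h3, hS, Finset.sum_sigma]
    refine Finset.sum_congr rfl fun r _ => ?_
    simp
  -- the good primes
  have hx : ∀ I ∈ F, (0 : ℝ) ≤ ((Ideal.absNorm I : ℕ) : ℝ) ^ (-s) := fun I _ =>
    Real.rpow_nonneg (Nat.cast_nonneg _) _
  have hprod := prod_le hsum F hFmax
  have hpos : 0 < ∏ I ∈ F, (1 + ((Ideal.absNorm I : ℕ) : ℝ) ^ (-s)) :=
    Finset.prod_pos fun I hI => by linarith [hx I hI]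
  have hs0 : 0 < s - 1 := by linarith
  have hdisc1 : (1 : ℝ) ≤ |(discr E : ℝ)| := by
    have : (1 : ℤ) ≤ |discr E| := Int.one_le_abs (NumberField.discr_ne_zero E)
    exact_mod_cast this
  have hld : 0 ≤ Real.log |(discr E : ℝ)| := Real.log_nonneg hdisc1
  have hDpos : 0 < (1 + Real.log |(discr E : ℝ)|) ^ d := by positivity
  have hlog : ∑ I ∈ F, Real.log (1 + ((Ideal.absNorm I : ℕ) : ℝ) ^ (-s)) ≤
      Real.log (1 / (s - 1)) + (Real.log C₀ + d * Real.log (1 + Real.log |(discr E : ℝ)|)) := by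
    rw [← Real.log_prod (fun I hI => (show (1 : ℝ) + ((Ideal.absNorm I : ℕ) : ℝ) ^ (-s) ≠ 0 from
        (by linarith [hx I hI] : (0 : ℝ) < 1 + ((Ideal.absNorm I : ℕ) : ℝ) ^ (-s)).ne')),
      ← Real.log_pow, ← Real.log_mul hC₀.ne' hDpos.ne',
      ← Real.log_mul (by positivity) (by positivity)]
    refine Real.log_le_log hpos (hprod.trans ?_)
    rw [one_div, inv_mul_eq_div, le_div_iff₀ hs0, mul_comm]
    exact hres
  have hsq : ∑ I ∈ F, (((Ideal.absNorm I : ℕ) : ℝ) ^ (-s)) ^ 2 ≤ 2 * d := by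
    have h3 : ∑ I ∈ F, (((Ideal.absNorm I : ℕ) : ℝ) ^ (-s)) ^ 2 ≤
        ∑ I ∈ F, ((Ideal.absNorm I : ℕ) : ℝ) ^ (-(2 : ℝ)) := by
      refine Finset.sum_le_sum fun I hI => ?_
      have hN : (1 : ℝ) ≤ ((Ideal.absNorm I : ℕ) : ℝ) := by
        have : Ideal.absNorm I ≠ 0 := by
          rw [Ne, Ideal.absNorm_eq_zero_iff]
          exact ne_bot_of_max I (hFmax I hI)
        exact_mod_cast Nat.one_le_iff_ne_zero.mpr this
      rw [← Real.rpow_natCast, ← Real.rpow_mul (by linarith)]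
      refine Real.rpow_le_rpow_of_exponent_le hN ?_
      push_cast
      linarith
    refine h3.trans ?_
    rw [hFsum 2]
    have h4 : ∑ r ∈ G, (#(R d η r) : ℝ) * (r : ℝ) ^ (-(2 : ℝ)) ≤
        ∑ r ∈ G, (d : ℝ) * (r : ℝ) ^ (-(2 : ℝ)) := by
      refine Finset.sum_le_sum fun r hr => ?_
      rw [hG, Finset.mem_filter, Pr, Finset.mem_filter] at hr
      exact mul_le_mul_of_nonneg_right (by exact_mod_cast R_card hd hr.1.2)
        (Real.rpow_nonneg (Nat.cast_nonneg _) _)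
    refine h4.trans ?_
    rw [← Finset.mul_sum]
    have h5 : ∑ r ∈ G, (r : ℝ) ^ (-(2 : ℝ)) ≤ 2 :=
      (Finset.sum_le_sum_of_subset_of_nonneg (Finset.filter_subset _ _) fun _ _ _ =>
        Real.rpow_nonneg (Nat.cast_nonneg _) _).trans (sum_sq x)
    have h6 : (0 : ℝ) ≤ d := Nat.cast_nonneg _
    nlinarith
  have hgood : ∑ r ∈ G, (rts d η r : ℝ) * (r : ℝ) ^ (-s) ≤
      Real.log (1 / (s - 1)) + (Real.log C₀ + d * Real.log (1 + Real.log |(discr E : ℝ)|)) +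
        2 * d := by
    have h3 : ∑ r ∈ G, (rts d η r : ℝ) * (r : ℝ) ^ (-s) ≤
        ∑ r ∈ G, (#(R d η r) : ℝ) * (r : ℝ) ^ (-s) := by
      refine Finset.sum_le_sum fun r hr => ?_
      rw [hG, Finset.mem_filter, Pr, Finset.mem_filter] at hr
      exact mul_le_mul_of_nonneg_right (by exact_mod_cast rts_le hr.1.2)
        (Real.rpow_nonneg (Nat.cast_nonneg _) _)
    rw [← hFsum s] at h3
    have h4 : ∑ I ∈ F, ((Ideal.absNorm I : ℕ) : ℝ) ^ (-s) ≤
        ∑ I ∈ F, (Real.log (1 + ((Ideal.absNorm I : ℕ) : ℝ) ^ (-s)) +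
          (((Ideal.absNorm I : ℕ) : ℝ) ^ (-s)) ^ 2) :=
      Finset.sum_le_sum fun I hI => log_ge (hx I hI)
    rw [Finset.sum_add_distrib] at h4
    linarith
  -- the discriminant
  have hq : (1 : ℝ) ≤ (q₁ : ℝ) * q₂ := by
    have : 1 ≤ q₁ * q₂ := Nat.mul_pos h1.pos h2.pos
    exact_mod_cast this
  have hlq : 0 ≤ Real.log ((q₁ : ℝ) * q₂) := Real.log_nonneg hq
  have hlD : Real.log |(discr E : ℝ)| ≤ (d : ℝ) ^ 2 * (1 + Real.log ((q₁ : ℝ) * q₂)) := by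
    have h3 := Real.log_le_log (by linarith) hdisc
    rw [Real.log_pow, Real.log_mul (by norm_num) (by linarith)] at h3
    have h4 : Real.log 2 ≤ 1 := by
      have := Real.log_two_lt_d9
      linarith
    have h5 : ((d * (d - 1) : ℕ) : ℝ) ≤ (d : ℝ) ^ 2 := by
      have : d * (d - 1) ≤ d ^ 2 := by
        rw [sq]; exact Nat.mul_le_mul le_rfl (Nat.sub_le _ _)
      exact_mod_cast this
    have h6 : 0 ≤ Real.log 2 + Real.log ((q₁ : ℝ) * q₂) := by
      have := Real.log_nonneg (show (1 : ℝ) ≤ 2 by norm_num)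
      linarith
    calc Real.log |(discr E : ℝ)| ≤ ((d * (d - 1) : ℕ) : ℝ) *
          (Real.log 2 + Real.log ((q₁ : ℝ) * q₂)) := h3
      _ ≤ (d : ℝ) ^ 2 * (1 + Real.log ((q₁ : ℝ) * q₂)) :=
          mul_le_mul h5 (by linarith) h6 (by positivity)
  have hlL : Real.log (1 + Real.log |(discr E : ℝ)|) ≤
      Real.log (1 + (d : ℝ) ^ 2) + Real.log (1 + Real.log ((q₁ : ℝ) * q₂)) := by
    rw [← Real.log_mul (by positivity) (by linarith)]
    refine Real.log_le_log (by linarith) ?_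
    have : (1 + (d : ℝ) ^ 2) * (1 + Real.log ((q₁ : ℝ) * q₂)) =
      1 + Real.log ((q₁ : ℝ) * q₂) + (d : ℝ) ^ 2 * (1 + Real.log ((q₁ : ℝ) * q₂)) := by ring
    rw [this]
    linarith
  have hL0 : 0 ≤ Real.log (1 + Real.log ((q₁ : ℝ) * q₂)) := Real.log_nonneg (by linarith)
  have hbad := bad hd h1 h2 hs1 x
  rw [← hη] at hbad
  have hsplit := Finset.sum_filter_add_sum_filter_not (Pr x) (fun r => r ∣ d * η)
    (fun p => (rts d η p : ℝ) * (p : ℝ) ^ (-s))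
  rw [← hG] at hsplit
  rw [← hsplit]
  have hl0 : 0 ≤ Real.log (1 + (d : ℝ) ^ 2) := Real.log_nonneg (by nlinarith [sq_nonneg (d : ℝ)])
  have hd0 : (0 : ℝ) ≤ d := Nat.cast_nonneg _
  have hCabs := le_abs_self (Real.log C₀)
  have hCabs0 := abs_nonneg (Real.log C₀)
  have hdl : (d : ℝ) * Real.log (1 + Real.log |(discr E : ℝ)|) ≤
      d * Real.log (1 + (d : ℝ) ^ 2) + d * Real.log (1 + Real.log ((q₁ : ℝ) * q₂)) := by
    rw [← mul_add]
    exact mul_le_mul_of_nonneg_left hlL hd0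
  have hfinal : (|Real.log C₀| + d * Real.log (1 + (d : ℝ) ^ 2) + d + 2 * d + d * (d + 2) + 1) *
      (1 + Real.log (1 + Real.log ((q₁ : ℝ) * q₂))) =
      (|Real.log C₀| + d * Real.log (1 + (d : ℝ) ^ 2) + d + 2 * d + d * (d + 2) + 1) +
      (|Real.log C₀| + d * Real.log (1 + (d : ℝ) ^ 2) + 2 * d + d * (d + 2) + 1) *
        Real.log (1 + Real.log ((q₁ : ℝ) * q₂)) + d * Real.log (1 + Real.log ((q₁ : ℝ) * q₂)) := by
    ring
  rw [hfinal]
  have h9 : 0 ≤ (|Real.log C₀| + d * Real.log (1 + (d : ℝ) ^ 2) + 2 * d + d * (d + 2) + 1) *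
        Real.log (1 + Real.log ((q₁ : ℝ) * q₂)) := by positivity
  linarith

end Pool.Agent.K1H26.RG
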